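import Pool.Agent.H1.CA.TarP

/-!
# MP_ceca85_lc, module PF: the forcing notion
-/

set_option linter.unusedVariables false

open Ordinal Order Set
open scoped ZFSet

namespace CAA

open SF

namespace H87

/-- all arguments equal to one of three sets -/
def a3 (x y z : V) : ℕ → V
  | 0 => x
  | 1 => y
  | _ => z

theorem in_a3 {M : V → Prop} {x y z : V} (hx : M x) (hy : M y) (hz : M z) : In M (a3 x y z) := by
  intro i
  rcases i with _ | _ | i
  · exact hx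
  · exact hy
  · exact hz

theorem m_app {M : V → Prop} (k : ZFm M) {f x : V} (hf : M f) (hx : M x) : M (app f x) :=
  (Tm.app (Tm.var 0) (Tm.var 1)).1 M k (a3 f x x) (in_a3 hf hx hx)

theorem m_insert {M : V → Prop} (k : ZFm M) {f x : V} (hf : M f) (hx : M x) : M (insert f x) :=
  (Tm.ins (Tm.var 0) (Tm.var 1)).1 M k (a3 f x x) (in_a3 hf hx hx)

theorem m_union {M : V → Prop} (k : ZFm M) {f x : V} (hf : M f) (hx : M x) : M (f ∪ x) :=
  (Tm.union (Tm.var 0) (Tm.var 1)).1 M k (a3 f x x) (in_a3 hf hx hx)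

theorem m_rst (h : T_PC) {M : V → Prop} (k : ZFm M) {S p : V} (hS : M S) (hp : M p) :
    M (rst S p) :=
  h.2.2.1.1 M k (a3 S p p) (in_a3 hS hp hp)

theorem m_cat (h : T_PC) {M : V → Prop} (k : ZFm M) {S p q : V} (hS : M S) (hp : M p) (hq : M q) :
    M (cat S p q) :=
  h.2.2.2.1.1 M k (a3 S p q) (in_a3 hS hp hq)

theorem m_upd (h : T_PC) {M : V → Prop} (k : ZFm M) {S p q : V} (hS : M S) (hp : M p) (hq : M q) :
    M (upd S p q) :=
  h.2.2.2.2.1.1 M k (a3 S p q) (in_a3 hS hp hq)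

theorem isQ_empty (m e : V) : IsQ m e ∅ where
  sub := fun x hx => absurd hx (ZFSet.notMem_empty x)
  mx := Or.inl rfl
  cl := by
    intro d hd hne h
    exfalso
    obtain ⟨x, hx⟩ : ∃ x, x ∈ d := by
      by_contra h0
      push Not at h0
      exact hne ((ZFSet.eq_empty d).2 h0)
    obtain ⟨y, hy, -⟩ := h x hx
    exact ZFSet.notMem_empty y hy
  dj := fun x hx => absurd hx (ZFSet.notMem_empty x)

theorem LA_sub {α β : Ordinal.{0}} (h : α ≤ β) {x : V} (hx : x ∈ LA ∅ α) : x ∈ LA ∅ β :=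
  Lh_mono h hx

theorem Ok.zM {D : Dat} (hD : D.Ok) : ZFm D.M := hD.grd.zfc.toZFm

theorem Ok.κθ {D : Dat} (hD : D.Ok) : D.κ < D.θ := hD.grd.κχ.trans hD.grd.χθ

/-- the elements of `L_κ` are in the model -/
theorem Ok.LκM {D : Dat} (hD : D.Ok) {x : V} (hx : x ∈ LA ∅ D.κ) : D.M x :=
  LA_sub (Ok.κθ hD).le hx

theorem Ok.ordM {D : Dat} (hD : D.Ok) {α : Ordinal.{0}} (h : α < D.θ) : D.M α.toZFSet :=
  (hD.grd.ord α).2 h

theorem Ok.ordLκ (hGH : T_GH) {D : Dat} (hD : D.Ok) {α : Ordinal.{0}} (h : α < D.κ) :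
    α.toZFSet ∈ LA ∅ D.κ :=
  ((hGH D hD).2.2 D.κ hD.grd.zκ).2.2 α |>.2 h

theorem mem_toZFSet {x : V} {α : Ordinal.{0}} : x ∈ α.toZFSet ↔ ∃ β < α, x = β.toZFSet := by
  rw [Ordinal.mem_toZFSet_iff]
  exact exists_congr fun β => and_congr_right fun _ => eq_comm

theorem ord_mem {α β : Ordinal.{0}} : α.toZFSet ∈ β.toZFSet ↔ α < β :=
  Ordinal.toZFSet_mem_toZFSet_iff

end H87

open H87

theorem pf_PF (hPA : T_PA) (hPB : T_PB) (hPC : T_PC) (hGH : T_GH) : T_PF := by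
  intro D hD
  have hM := Ok.zM hD
  have hκ := hD.grd.zκ
  obtain ⟨pa1, pa2, pa3, pa4, pa5, pa6, pa7⟩ := hPA
  obtain ⟨pb1, pb2, pb3, pb4⟩ := id hPB
  have dmκ : ∀ p ∈ D.c, ∀ k, k ∉ D.κ.toZFSet → app p k = ∅ := by
    intro p hp k hk
    refine pb4 p k fun h => hk ?_
    obtain ⟨y, hy⟩ := mem_dm.1 h
    obtain ⟨j, hj, q, hq⟩ := ((hD.cA p).1 hp).pr _ hy
    rw [(ZFSet.pair_inj.1 hq).1]
    exact ord_mem.2 hj
  have hval : ∀ p ∈ D.c, ∀ k < D.κ, D.Q k (app p k.toZFSet) := by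
    intro p hp k hk
    have h1 := (hD.cA p).1 hp
    refine ⟨m_app hM (Ok.LκM hD h1.lk) (Ok.ordM hD (hk.trans (Ok.κθ hD))), ?_⟩
    have h2 := h1.q k hk
    rwa [hD.sz.muA k hk] at h2
  -- a criterion
  have crit : ∀ p, p ∈ LA ∅ D.κ → (∀ z ∈ p, ∃ k < D.κ, ∃ q, z = ZFSet.pair k.toZFSet q) →
      Svl p → (∀ k < D.κ, IsQ (D.μ k).toZFSet (app D.Ef k.toZFSet) (app p k.toZFSet)) →
      p ∈ D.c := by
    intro p h1 h2 h3 h4
    refine (hD.cA p).2 ⟨h1, h2, h3, fun k hk => ?_⟩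
    rw [hD.sz.muA k hk]
    exact h4 k hk
  have hr : ∀ p p', ZFSet.pair p p' ∈ D.r ↔ p ∈ D.c ∧ p' ∈ D.c ∧ D.Le p p' := by
    intro p p'
    rw [hD.rA]
    constructor
    · rintro ⟨a, ha, b, hb, h, h'⟩
      obtain ⟨rfl, rfl⟩ := ZFSet.pair_inj.1 h
      exact ⟨ha, hb, h'⟩
    · rintro ⟨ha, hb, h⟩
      exact ⟨p, ha, p', hb, rfl, h⟩
  have hrst : ∀ p ∈ D.c, ∀ S, D.M S → rst S p ∈ D.c := by
    intro p hp S hS
    have h1 := (hD.cA p).1 hp
    obtain ⟨h2, h3⟩ := pb1 p S h1.svl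
    refine crit _ ?_ ?_ h2 ?_
    · exact hD.grd.subκ p h1.lk _ (m_rst hPC hM hS (Ok.LκM hD h1.lk)) fun z hz =>
        (ZFSet.mem_sep.1 hz).1
    · intro z hz
      exact h1.pr z (ZFSet.mem_sep.1 hz).1
    · intro k hk
      by_cases hkS : k.toZFSet ∈ S
      · rw [(h3 _).1 hkS]
        exact (hval p hp k hk).2
      · rw [(h3 _).2 hkS]
        exact isQ_empty _ _
  have hcat : ∀ p ∈ D.c, ∀ p' ∈ D.c, ∀ S, D.M S → cat S p p' ∈ D.c := by
    intro p hp p' hp' S hS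
    have h1 := (hD.cA p).1 hp
    have h1' := (hD.cA p').1 hp'
    obtain ⟨h2, h3⟩ := pb2 p S p' h1.svl h1'.svl
    have hsub : ∀ z ∈ cat S p p', z ∈ p ∨ z ∈ p' := by
      intro z hz
      unfold cat at hz
      rcases ZFSet.mem_union.1 hz with h | h
      · exact Or.inl (ZFSet.mem_sep.1 h).1
      · exact Or.inr (ZFSet.mem_sep.1 h).1
    refine crit _ ?_ ?_ h2 ?_
    · exact hD.grd.subκ (p ∪ p') (m_union hκ h1.lk h1'.lk) _
        (m_cat hPC hM hS (Ok.LκM hD h1.lk) (Ok.LκM hD h1'.lk)) fun z hz =>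
          ZFSet.mem_union.2 (hsub z hz)
    · intro z hz
      rcases hsub z hz with h | h
      · exact h1.pr z h
      · exact h1'.pr z h
    · intro k hk
      by_cases hkS : k.toZFSet ∈ S
      · rw [(h3 _).1 hkS]
        exact (hval p hp k hk).2
      · rw [(h3 _).2 hkS]
        exact (hval p' hp' k hk).2
  have hempty : ∅ ∈ D.c := by
    refine crit _ hκ.mempty ?_ ?_ ?_
    · intro z hz
      exact absurd hz (ZFSet.notMem_empty z)
    · intro x y z hy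
      exact absurd hy (ZFSet.notMem_empty _)
    · intro k hk
      rw [pb4 ∅ k.toZFSet fun h => by
        obtain ⟨y, hy⟩ := mem_dm.1 h
        exact ZFSet.notMem_empty _ hy]
      exact isQ_empty _ _
  refine ⟨⟨?_, ?_, ?_, ?_⟩, LA_sub hD.grd.χθ.le hD.cM, LA_sub hD.grd.χθ.le hD.rM, hempty, ?_,
    hrst, hcat, ?_, hr, ?_, ?_, ?_⟩
  · exact ZFSet.nonempty_def _ |>.2 ⟨∅, hempty⟩
  · intro z hz
    obtain ⟨p, hp, q, hq, h, -⟩ := (hD.rA z).1 hz
    exact ⟨p, hp, q, hq, h⟩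
  · intro p hp
    exact (hr p p).2 ⟨hp, hp, fun k hk => pa1 _⟩
  · intro p q s h1 h2
    obtain ⟨a1, a2, a3'⟩ := (hr p q).1 h1
    obtain ⟨b1, b2, b3⟩ := (hr q s).1 h2
    exact (hr p s).2 ⟨a1, b2, fun k hk => pa2 _ _ _ (a3' k hk) (b3 k hk)⟩
  · intro p hp
    have h1 := (hD.cA p).1 hp
    exact ⟨h1.svl, Ok.LκM hD h1.lk, hval p hp, dmκ p hp⟩
  · -- update
    intro p hp k hk q hq
    have h1 := (hD.cA p).1 hp
    obtain ⟨h2, h3, h4⟩ := pb3 p k.toZFSet q h1.svl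
    have hμ : (D.μ k).toZFSet ∈ LA ∅ D.κ := Ok.ordLκ hGH hD (hD.sz.μκ k hk)
    have hqκ : q ∈ LA ∅ D.κ := hD.grd.subκ _ hμ q hq.1 hq.2.sub
    have hkκ : k.toZFSet ∈ LA ∅ D.κ := Ok.ordLκ hGH hD hk
    refine crit _ (m_upd hPC hκ h1.lk hkκ hqκ) ?_ h2 ?_
    · intro z hz
      unfold upd at hz
      rcases ZFSet.mem_insert_iff.1 hz with h | h
      · exact ⟨k, hk, q, h⟩
      · exact h1.pr z (ZFSet.mem_sep.1 h).1
    · intro j hj
      by_cases hjk : j = k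
      · subst hjk
        rw [h3]
        exact hq.2
      · rw [h4 j.toZFSet fun h => hjk (Ordinal.toZFSet_injective h)]
        exact (hval p hp j hj).2
  · -- joins
    intro p hp p' hp' hcmp
    have h1 := (hD.cA p).1 hp
    have h1' := (hD.cA p').1 hp'
    have hpM := Ok.LκM hD h1.lk
    have hpM' := Ok.LκM hD h1'.lk
    obtain ⟨T, hT⟩ : ∃ T, T = D.κ.toZFSet.sep fun k => Ee (app p k) (app p' k) := ⟨_, rfl⟩
    have hTM : D.M T := by
      have t1 : Dfb ZFm (fun _ v => Ee (app (v 2) (v 0)) (app (v 3) (v 0))) :=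
        Dfb.at2 (P := fun _ x y => Ee x y) hPC.2.1 (Tm.app (Tm.var 2) (Tm.var 0))
          (Tm.app (Tm.var 3) (Tm.var 0))
      have t2 := (Tm.sep t1 (Tm.var 0)).1 D.M hM (a3 D.κ.toZFSet p p')
        (in_a3 (Ok.ordM hD (Ok.κθ hD)) hpM hpM')
      rw [hT]
      exact t2
    refine ⟨cat T p p', hcat p hp p' hp' T hTM, ?_, ?_⟩
    · intro k hk
      obtain ⟨-, h3⟩ := pb2 p T p' h1.svl h1'.svl
      by_cases hkT : k.toZFSet ∈ T
      · rw [(h3 _).1 hkT]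
        exact pa1 _
      · rw [(h3 _).2 hkT]
        rcases hcmp k hk with h | h
        · exact absurd (by rw [hT]; exact ZFSet.mem_sep.2 ⟨ord_mem.2 hk, h⟩) hkT
        · exact h
    · intro k hk
      obtain ⟨-, h3⟩ := pb2 p T p' h1.svl h1'.svl
      by_cases hkT : k.toZFSet ∈ T
      · rw [(h3 _).1 hkT]
        rw [hT] at hkT
        exact (ZFSet.mem_sep.1 hkT).2
      · rw [(h3 _).2 hkT]
        exact pa1 _
  · -- larger maximum
    intro k hk q hq x hx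
    have hlim := ((hGH D hD).1 k hk).2.2.1
    obtain ⟨w, hw1, hw2, hw3⟩ : ∃ w < D.μ k, x ≤ w ∧ ∀ z ∈ q, z ∈ (succ w).toZFSet := by
      rcases hq.2.mx with h | ⟨d, hd, hmax⟩
      · refine ⟨x, hx, le_rfl, fun z hz => ?_⟩
        rw [h] at hz
        exact absurd hz (ZFSet.notMem_empty z)
      · obtain ⟨δ, hδ, rfl⟩ := mem_toZFSet.1 (hq.2.sub hd)
        refine ⟨max x δ, max_lt hx hδ, le_max_left _ _, fun z hz => ?_⟩
        obtain ⟨ζ, hζ, rfl⟩ := mem_toZFSet.1 (hq.2.sub hz)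
        rw [ord_mem]
        rcases hmax _ hz with h | h
        · exact (ord_mem.1 h).trans_le ((le_max_right _ _).trans (le_succ _))
        · rw [Ordinal.toZFSet_injective h]
          exact lt_succ_of_le (le_max_right _ _)
    have hy : succ w < D.μ k := hlim.succ_lt hw1
    have hnot : (succ w).toZFSet ∉ app D.Ef k.toZFSet := by
      intro h
      obtain ⟨δ, hδ, h2, h3⟩ := (hD.eA k hk _).1 h
      have h4 : succ w = δ := Ordinal.toZFSet_injective h2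
      obtain ⟨f, hf, hfun, hcof⟩ := h3.cof
      rw [← h4] at hfun hcof
      obtain ⟨n, hn⟩ := hcof w (lt_succ w)
      have h5 := app_mem hfun (mem_om.2 ⟨n, rfl⟩)
      obtain ⟨β, hβ, h6⟩ := mem_toZFSet.1 h5
      rw [h6, ord_mem] at hn
      exact absurd (lt_succ_iff.1 hβ) (not_le.2 hn)
    have hkey := pa6 (D.μ k) (succ w) (app D.Ef k.toZFSet) q hq.2 hy hnot hw3
    refine ⟨succ w, hy, lt_succ_of_le hw2, hw3, ⟨?_, hkey.1⟩, hkey.2⟩
    exact m_insert hM (Ok.ordM hD (hy.trans ((hD.sz.μκ k hk).trans (Ok.κθ hD)))) hq.1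
  · -- bounded conditions
    intro i hi p hp hz
    have h1 := (hD.cA p).1 hp
    have hpM := Ok.LκM hD h1.lk
    refine hD.sz.pow2 i hi p hpM fun z hz' => ?_
    obtain ⟨k, hk, q, rfl⟩ := h1.pr z hz'
    have h2 := hz _ hz'
    rw [fst_pair, ord_mem] at h2
    have h3 : app p k.toZFSet = q := app_eq h1.svl hz'
    refine ⟨k, h2, q, (hM.of_pair_mem hpM hz').2, ?_, rfl⟩
    rw [← h3]
    exact (hval p hp k hk).2.sub

end CAA
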