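import Pool.Agent.H94.CA.PI

/-!
# MP_ceca85_lc, module PK: `κ` is inaccessible in the extension -/

set_option linter.unusedVariables false

open Ordinal Order Set
open scoped ZFSet

namespace CAA

open SF XPI

namespace XPK

theorem LAmono {α β : Ordinal.{0}} (h : α ≤ β) : (LA ∅ α : V) ⊆ LA ∅ β := Lh_mono h

theorem LAmem {α β : Ordinal.{0}} (h : α < β) : (LA ∅ α : V) ∈ LA ∅ β := Lh_mem h

/-- the common facts -/
structure Ctx (D : Dat) (l : Ordinal.{0}) (C : V) : Prop where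
  cM : D.M C
  gd : Gd C
  lM : D.M l.toZFSet
  lC : l.toZFSet ⊆ C
  sm : Sm D.M C l.toZFSet
  ck : C ∈ LA ∅ D.κ

theorem ctx (hDF : T_DF) (hGH : T_GH) {D : Dat} (hD : D.Ok) {l : Ordinal.{0}}
    (hl : l < D.κ) : Ctx D l (LA ∅ (D.γ l)) := by
  have hz : ZFm D.M := hD.grd.zfc.toZFm
  obtain ⟨hGd, hCM, -⟩ := (hGH D hD).1 l hl
  obtain ⟨-, df2, -⟩ := hDF D.M hz _ hCM hGd
  have hlM : D.M l.toZFSet := (hD.grd.ord l).2 (hl.trans (hD.grd.κχ.trans hD.grd.χθ))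
  have h1 : l.toZFSet ∈ LA ∅ (D.γ l) :=
    (((hGH D hD).2.2 _ (hD.sz.zγ l hl)).2.2 l).2 (hD.sz.iγ l hl)
  have h2 : l.toZFSet ⊆ LA ∅ (D.γ l) := fun x hx => hGd.tr _ h1 hx
  exact ⟨hCM, hGd, hlM, h2, df2 _ hlM h2, LAmem (hD.sz.γκ l hl)⟩

/-- the function `O` of the arguments `c, r, n, x, z` -/
theorem tO {O2 : (V → Prop) → (ℕ → V) → V} (hO2 : Tm ZFm O2)
    {a b : (V → Prop) → (ℕ → V) → V} {kc kr kn : ℕ} (ha : Tm ZFm a) (hb : Tm ZFm b) :
    Tm ZFm (fun M v => O2 M (cons (v kc) (cons (v kr) (cons (v kn)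
      (cons (a M v) fun _ => b M v))))) := by
  refine (hO2.comp (fun j => match j with
    | 0 => fun _ v => v kc
    | 1 => fun _ v => v kr
    | 2 => fun _ v => v kn
    | 3 => a
    | _ + 4 => b) ?_).congr ?_
  · intro j
    match j with
    | 0 => exact Tm.var kc
    | 1 => exact Tm.var kr
    | 2 => exact Tm.var kn
    | 3 => exact ha
    | j + 4 => exact hb
  · intro M k v hv
    congr 1
    funext j
    match j with
    | 0 => rfl
    | 1 => rfl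
    | 2 => rfl
    | 3 => rfl
    | j + 4 => rfl

theorem in4 {M : V → Prop} {a b c d e : V} (ha : M a) (hb : M b) (hc : M c) (hd : M d)
    (he : M e) : In M (cons a (cons b (cons c (cons d fun _ => e)))) := by
  intro j
  match j with
  | 0 => exact ha
  | 1 => exact hb
  | 2 => exact hc
  | 3 => exact hd
  | j + 4 => exact he

/-- regularity -/
theorem reg (hPC : T_PC) (hPF : T_PF) (hPI : T_PI) (hDF : T_DF) (hDS : T_DS) (hGH : T_GH)
    (hFM : T_FM) (D : Dat) (hD : D.Ok) (G : V) (hG : D.Gn G) :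
    ∀ l < D.κ, ∀ f, Ext D.M G f → ZFSet.IsFunc l.toZFSet D.κ.toZFSet f →
      ∃ γ < D.κ, ∀ ξ < l, app f ξ.toZFSet ∈ γ.toZFSet := by
  intro i hi f hf hff
  have hz : ZFm D.M := hD.grd.zfc.toZFm
  obtain ⟨po, hcM, hrM, -, hcd, -, -, -, hle, -, -, hlow⟩ := hPF D hD
  obtain ⟨hCM, hGd, hiM, hiC, hsm, hCκ⟩ := ctx hDF hGH hD hi
  have hmM : D.M D.κ.toZFSet := (hD.grd.ord _).2 (hD.grd.κχ.trans hD.grd.χθ)
  have hctb : {x | D.M x}.Countable := hD.grd.ctb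
  obtain ⟨n, hn, rfl⟩ := hf
  set C : V := LA ∅ (D.γ i) with hC
  set m : V := D.κ.toZFSet with hm
  have mle : ∀ {p q : V}, ZFSet.pair p q ∈ D.r → p ∈ D.c ∧ q ∈ D.c ∧ D.Le p q :=
    fun {p q} h => (hle p q).1 h
  -- the relation: the value of `n` is a function from `i` to `m`
  have hR1 : Dfb ZFm (fun _ w => ZFSet.IsFunc (w 2) (w 3) (val (w 0) (w 1))) :=
    Dfb.isFunc (Tm.var 2) (Tm.var 3) (Tm.val (Tm.var 0) (Tm.var 1))
  obtain ⟨O1, hO1, hO1'⟩ := hDS _ hR1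
  -- the relation: the value at `x` is `z`
  have hR2 : Dfb ZFm (fun _ w => app (val (w 0) (w 1)) (w 2) = w 3) :=
    Dfb.eq (Tm.app (Tm.val (Tm.var 0) (Tm.var 1)) (Tm.var 2)) (Tm.var 3)
  obtain ⟨O2, hO2, hO2'⟩ := hDS _ hR2
  have hv1 : In D.M (cons n (cons i.toZFSet fun _ => m)) := by
    intro j
    match j with
    | 0 => exact hn
    | 1 => exact hiM
    | j + 2 => exact hmM
  obtain ⟨o1, o2, o3⟩ := hO1' D.M D.c D.r _ hz hcM hrM po hv1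
  obtain ⟨p0, hp0, hp0O⟩ := (o2 G hG).1 hff
  have hmz : ∀ z ∈ m, D.M z := fun z hz' => hz.trans _ hmM z hz'
  have hCz : ∀ z ∈ i.toZFSet, D.M z := fun z hz' => hz.trans _ hiM z hz'
  have hv2 : ∀ x, D.M x → ∀ z, D.M z → In D.M (cons n (cons x fun _ => z)) := by
    intro x hx z hz' j
    match j with
    | 0 => exact hn
    | 1 => exact hx
    | j + 2 => exact hz'
  -- the set of the conditions which force that the value at `x` is `z`
  set O : V → V → V := fun x z => O2 D.M (cons D.c (cons D.r (cons n (cons x fun _ => z))))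
    with hOdef
  have hOr : ∀ x, D.M x → ∀ z, D.M z → RegO D.c D.r (O x z) := fun x hx z hz' =>
    (hO2' D.M D.c D.r _ hz hcM hrM po (hv2 x hx z hz')).1
  have hOt : ∀ x, D.M x → ∀ z, D.M z → ∀ G, D.Gn G →
      (app (val G n) x = z ↔ ∃ p ∈ G, p ∈ O x z) := fun x hx z hz' G hG =>
    (hO2' D.M D.c D.r _ hz hcM hrM po (hv2 x hx z hz')).2.1 G hG
  -- the dense sets
  set W : V := resS i.toZFSet fun x => D.c.sep fun p => ∃ z ∈ m, p ∈ O x z with hWdef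
  have hWM : D.M W := by
    have t : Tm ZFm (fun M v => resS (v 3) fun x => (v 0).sep fun p => ∃ z ∈ v 4,
        p ∈ O2 M (cons (v 0) (cons (v 1) (cons (v 2) (cons x fun _ => z))))) := by
      refine (Tm.resS (f := fun _ v => v 3) (g := fun M v => (v 1).sep fun p => ∃ z ∈ v 5,
        p ∈ O2 M (cons (v 1) (cons (v 2) (cons (v 3) (cons (v 0) fun _ => z))))) (Tm.var 3)
        ?_).congr fun M k v hv => rfl
      refine (Tm.sep (R := fun M v => ∃ z ∈ v 6,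
        v 0 ∈ O2 M (cons (v 2) (cons (v 3) (cons (v 4) (cons (v 1) fun _ => z))))) ?_
        (Tm.var 1)).congr fun M k v hv => rfl
      exact (Dfb.bex (R := fun M v =>
        v 1 ∈ O2 M (cons (v 3) (cons (v 4) (cons (v 5) (cons (v 2) fun _ => v 0))))) ktr_zfm
        (Tm.var 6) (Dfb.mem (Tm.var 1) (tO hO2 (Tm.var 2) (Tm.var 0)))).congr
          fun M k v hv => Iff.rfl
    exact t.1 D.M hz (cons D.c (cons D.r (cons n (cons i.toZFSet fun _ => m))))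
      (in4 hcM hrM hn hiM hmM)
  have hWx : ∀ x ∈ i.toZFSet, ∀ p, p ∈ app W x ↔ p ∈ D.c ∧ ∃ z ∈ m, p ∈ O x z := by
    intro x hx p
    rw [hWdef, app_resS hx, ZFSet.mem_sep]
  obtain ⟨v, hvG, -, hvr⟩ := hPI D hD G hG i hi p0 hp0 i.toZFSet W hiM hsm hWM (by
    intro x hx
    refine ⟨fun p hp => ((hWx x hx p).1 hp).1, ?_, ?_⟩
    · intro p hp q hq hqp
      obtain ⟨hpc, z, hz', hpz⟩ := (hWx x hx p).1 hp
      exact (hWx x hx q).2 ⟨hq, z, hz', (hOr x (hCz x hx) z (hmz z hz')).2.1 p hpz q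
        ((hle q p).2 ⟨hq, hpc, hqp⟩)⟩
    · intro p hp hpp
      obtain ⟨G', hG', hpG'⟩ := hFM D.M D.c D.r p hctb po hp
      have hp0G' : p0 ∈ G' := hG'.1.up p hpG' p0 ((hle p p0).2 ⟨hp, hG.1.sub hp0, hpp⟩)
      have hfun : ZFSet.IsFunc i.toZFSet m (val G' n) := (o2 G' hG').2 ⟨p0, hp0G', hp0O⟩
      have hzm : app (val G' n) x ∈ m := app_mem hfun hx
      obtain ⟨p', hp', hp'O⟩ := (hOt x (hCz x hx) _ (hmz _ hzm) G' hG').1 rfl
      obtain ⟨s, hs, hsp, hsp'⟩ := hG'.1.dir p hpG' p' hp'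
      refine ⟨s, (hWx x hx s).2 ⟨hG'.1.sub hs, _, hzm, ?_⟩, (mle hsp).2.2⟩
      exact (hOr x (hCz x hx) _ (hmz _ hzm)).2.1 p' hp'O s hsp')
  have hvc : v ∈ D.c := hG.1.sub hvG
  have hvM : D.M v := (hcd v hvc).2.1
  -- the possible values
  set F : V := (ZFSet.prod (ZFSet.prod i.toZFSet C) m).sep fun w =>
    cat i.toZFSet (snd (fst w)) v ∈ O (fst (fst w)) (snd w) with hFdef
  have hFM' : D.M F := by
    have t : Tm ZFm (fun M w => (ZFSet.prod (ZFSet.prod (w 6) (w 3)) (w 4)).sep fun y =>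
        cat (w 6) (snd (fst y)) (w 5) ∈
          O2 M (cons (w 0) (cons (w 1) (cons (w 2) (cons (fst (fst y)) fun _ => snd y))))) := by
      refine (Tm.sep (f := fun _ w => ZFSet.prod (ZFSet.prod (w 6) (w 3)) (w 4))
        (R := fun M w => cat (w 7) (snd (fst (w 0))) (w 6) ∈
          O2 M (cons (w 1) (cons (w 2) (cons (w 3) (cons (fst (fst (w 0))) fun _ =>
            snd (w 0)))))) ?_
        (Tm.prod (Tm.prod (Tm.var 6) (Tm.var 3)) (Tm.var 4))).congr fun M k v hv => rfl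
      exact Dfb.mem (tm_cat hPC (Tm.var 7) (Tm.snd (Tm.fst (Tm.var 0))) (Tm.var 6))
        (tO hO2 (Tm.fst (Tm.fst (Tm.var 0))) (Tm.snd (Tm.var 0)))
    exact t.1 D.M hz (cons D.c (cons D.r (cons n (cons C (cons m
      (cons v fun _ => i.toZFSet)))))) (by
      intro j
      match j with
      | 0 => exact hcM
      | 1 => exact hrM
      | 2 => exact hn
      | 3 => exact hCM
      | 4 => exact hmM
      | 5 => exact hvM
      | j + 6 => exact hiM)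
  have hFp : ∀ x u z, ZFSet.pair (ZFSet.pair x u) z ∈ F ↔ (x ∈ i.toZFSet ∧ u ∈ C) ∧ z ∈ m ∧
      cat i.toZFSet u v ∈ O x z := by
    intro x u z
    rw [hFdef, ZFSet.mem_sep, ZFSet.pair_mem_prod, ZFSet.pair_mem_prod]
    simp only [fst_pair, snd_pair]
    tauto
  have hFs : ∀ w ∈ F, ∃ x u z, w = ZFSet.pair (ZFSet.pair x u) z := by
    intro w hw
    rw [hFdef, ZFSet.mem_sep] at hw
    obtain ⟨a, ha, z, -, rfl⟩ := ZFSet.mem_prod.1 hw.1
    obtain ⟨x, -, u, -, rfl⟩ := ZFSet.mem_prod.1 ha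
    exact ⟨x, u, z, rfl⟩
  have hsv : Svl F := by
    intro a z z' h1 h2
    obtain ⟨x, u, z0, e⟩ := hFs _ h1
    obtain ⟨rfl, rfl⟩ := ZFSet.pair_inj.1 e
    obtain ⟨⟨hx, hu⟩, hzm, hO⟩ := (hFp x u z).1 h1
    obtain ⟨-, hzm', hO'⟩ := (hFp x u z').1 h2
    have hcc := (hOr x (hCz x hx) z (hmz z hzm)).1 hO
    obtain ⟨G', hG', hpG'⟩ := hFM D.M D.c D.r _ hctb po hcc
    have r1 := (hOt x (hCz x hx) z (hmz z hzm) G' hG').2 ⟨_, hpG', hO⟩
    have r2 := (hOt x (hCz x hx) z' (hmz z' hzm') G' hG').2 ⟨_, hpG', hO'⟩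
    rw [← r1, ← r2]
  have hdM : D.M (dm F) := by
    exact (Tm.dm (Tm.var 0)).1 D.M hz (fun _ => F) fun _ => hFM'
  have hdC : dm F ⊆ ZFSet.prod C C := by
    intro a ha
    obtain ⟨z, hz'⟩ := mem_dm.1 ha
    obtain ⟨x, u, z0, e⟩ := hFs _ hz'
    obtain ⟨rfl, rfl⟩ := ZFSet.pair_inj.1 e
    obtain ⟨⟨h1, h2⟩, -⟩ := (hFp x u z).1 hz'
    exact ZFSet.pair_mem_prod.2 ⟨hiC h1, h2⟩
  have hCC : ZFSet.prod C C ∈ LA ∅ D.κ :=
    (Tm.prod (Tm.var 0) (Tm.var 0)).1 (· ∈ LA ∅ D.κ) hD.grd.zκ (fun _ => C) fun _ => hCκ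
  have hdκ : dm F ∈ LA ∅ D.κ := hD.grd.subκ _ hCC _ hdM hdC
  have hfF : ZFSet.IsFunc (dm F) m F := by
    refine ⟨fun w hw => ?_, fun a ha => ?_⟩
    · obtain ⟨x, u, z, rfl⟩ := hFs w hw
      exact ZFSet.pair_mem_prod.2 ⟨mem_dm.2 ⟨z, hw⟩, ((hFp x u z).1 hw).2.1⟩
    · obtain ⟨z, hz'⟩ := mem_dm.1 ha
      exact ⟨z, hz', fun y hy => hsv _ _ _ hy hz'⟩
  obtain ⟨η, hη, hsub⟩ := hD.grd.regκ _ hdκ F hFM' hfF
  refine ⟨η, hη, ?_⟩
  intro ξ hξ
  have hx : ξ.toZFSet ∈ i.toZFSet := Ordinal.mem_toZFSet_iff.2 ⟨ξ, hξ, rfl⟩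
  obtain ⟨u', hu', hd, hcG, hcW⟩ := hvr _ hx
  obtain ⟨-, z, hzm, hzO⟩ := (hWx _ hx _).1 hcW
  have r := (hOt _ (hCz _ hx) z (hmz z hzm) G hG).2 ⟨_, hcG, hzO⟩
  rw [r]
  have h1 : ZFSet.pair (ZFSet.pair ξ.toZFSet u') z ∈ F :=
    (hFp _ u' z).2 ⟨⟨hx, hlow i hi u' (hG.1.sub hu') hd⟩, hzm, hzO⟩
  have h2 := hsub _ (mem_dm.2 ⟨z, h1⟩)
  rwa [app_eq hsv h1] at h2

/-- the conditions `cat i u v` belong to the filter -/
theorem cat_mem (hPB : T_PB) (hPF : T_PF) (hPG : T_PG) {D : Dat} (hD : D.Ok) {G : V}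
    (hG : D.Gn G) {i : Ordinal.{0}} (hiM : D.M i.toZFSet) {u v : V} (hu : u ∈ G) (hv : v ∈ G) :
    cat i.toZFSet u v ∈ G := by
  obtain ⟨po, hcM, hrM, -, hcd, -, hcat, -, hle, -, -, hlow⟩ := hPF D hD
  obtain ⟨g1, g2, -⟩ := hPG D hD G hG
  have huc := hG.1.sub hu
  have hvc := hG.1.sub hv
  refine (g1 _ (hcat u huc v hvc _ hiM)).2 fun k hk => ?_
  obtain ⟨-, h2⟩ := hPB.2.1 u i.toZFSet v (hcd u huc).1 (hcd v hvc).1
  by_cases h : k.toZFSet ∈ i.toZFSet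
  · rw [(h2 _).1 h]
    exact ((g2 k hk).1 _).2 ⟨u, hu, rfl⟩
  · rw [(h2 _).2 h]
    exact ((g2 k hk).1 _).2 ⟨v, hv, rfl⟩

/-- strong limit -/
theorem str (hPB : T_PB) (hPC : T_PC) (hPF : T_PF) (hPG : T_PG) (hPI : T_PI) (hDF : T_DF)
    (hDO : T_DO) (hDS : T_DS) (hGH : T_GH) (hFI : T_FI)
    (hFM : T_FM) (D : Dat) (hD : D.Ok) (G : V) (hG : D.Gn G) :
    ∀ l < D.κ, ∃ τ < D.κ, ∃ f, Ext D.M G f ∧
      ∀ x, Ext D.M G x → x ⊆ l.toZFSet → ∃ ξ < τ, app f ξ.toZFSet = x := by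
  intro i hi
  have hz : ZFm D.M := hD.grd.zfc.toZFm
  obtain ⟨po, hcM, hrM, -, hcd, -, -, -, hle, -, -, hlow⟩ := hPF D hD
  obtain ⟨hCM, hGd, hiM, hiC, hsm, hCκ⟩ := ctx hDF hGH hD hi
  have hctb : {x | D.M x}.Countable := hD.grd.ctb
  have mle : ∀ {p q : V}, ZFSet.pair p q ∈ D.r → p ∈ D.c ∧ q ∈ D.c ∧ D.Le p q :=
    fun {p q} h => (hle p q).1 h
  set C : V := LA ∅ (D.γ i) with hC
  have hiκ : i.toZFSet ∈ LA ∅ D.κ :=
    ((hGH D hD).2.2 _ hD.grd.zκ).2.2 i |>.2 hi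
  have hCi : ZFSet.prod C i.toZFSet ∈ LA ∅ D.κ := by
    have t : Tm ZFm (fun _ v => ZFSet.prod (v 0) (v 1)) := Tm.prod (Tm.var 0) (Tm.var 1)
    exact t.1 (· ∈ LA ∅ D.κ) hD.grd.zκ (cons C fun _ => i.toZFSet) (by
      intro j
      match j with
      | 0 => exact hCκ
      | j + 1 => exact hiκ)
  obtain ⟨ρ, hρ, hpow⟩ := hD.grd.powκ _ hCi
  -- the set of all the subsets of `C × i`
  obtain ⟨z, hz'⟩ : ∃ z, z = (LA ∅ ρ : V).sep fun R => R ⊆ ZFSet.prod C i.toZFSet := ⟨_, rfl⟩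
  have hzκ : z ∈ LA ∅ D.κ := by
    have t : Tm ZFm (fun _ v => (v 0).sep fun R => R ⊆ v 1) := by
      refine (Tm.sep (R := fun _ v => v 0 ⊆ v 2) ?_ (Tm.var 0)).congr fun M k v hv => rfl
      exact Dfb.subset (Tm.var 0) (Tm.var 2)
    rw [hz']
    exact t.1 (· ∈ LA ∅ D.κ) hD.grd.zκ (cons (LA ∅ ρ) fun _ => ZFSet.prod C i.toZFSet) (by
      intro j
      match j with
      | 0 => exact LAmem hρ
      | j + 1 => exact hCi)
  have hmz : ∀ R, D.M R → R ⊆ ZFSet.prod C i.toZFSet → R ∈ z := by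
    intro R hR hRs
    rw [hz', ZFSet.mem_sep]
    exact ⟨hpow R hR hRs, hRs⟩
  obtain ⟨N, hN, hVN, -, -, hon, -⟩ := hDO D.M D.κ hD.grd.zfc hD.grd.inac
  have hNe : ∀ x, x ∈ N ↔ x ∈ LA ∅ D.κ := fun x => (hVN x).trans (hD.grd.vk x).symm
  have hne : z ≠ ∅ := by
    intro h
    have h1 := hmz ∅ hz.mempty fun x hx => absurd hx (ZFSet.notMem_empty x)
    rw [h] at h1
    exact ZFSet.notMem_empty _ h1
  obtain ⟨τ, hτ, e, heN, heo⟩ := (hon z ((hNe z).2 hzκ)).resolve_left hne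
  have heM : D.M e := hz.trans _ hN e heN
  have hτM : D.M τ.toZFSet := (hD.grd.ord τ).2 (hτ.trans (hD.grd.κχ.trans hD.grd.χθ))
  obtain ⟨kE, hME, hGE⟩ := hFI D.M D.c D.r G hz hcM hrM po hG
  -- the enumeration
  obtain ⟨h, hh⟩ : ∃ h, h = resS τ.toZFSet fun ξ => i.toZFSet.sep fun η =>
    ∃ u ∈ G, ZFSet.pair u η ∈ app e ξ := ⟨_, rfl⟩
  refine ⟨τ, hτ, h, ?_, ?_⟩
  · have t : Tm ZFm (fun _ v => resS (v 0) fun ξ => (v 1).sep fun η =>
        ∃ u ∈ v 2, ZFSet.pair u η ∈ app (v 3) ξ) := by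
      refine (Tm.resS (f := fun _ v => v 0) (g := fun _ v => (v 2).sep fun η =>
        ∃ u ∈ v 3, ZFSet.pair u η ∈ app (v 4) (v 0)) (Tm.var 0) ?_).congr fun M k v hv => rfl
      refine (Tm.sep (R := fun _ v => ∃ u ∈ v 4, ZFSet.pair u (v 0) ∈ app (v 5) (v 1)) ?_
        (Tm.var 2)).congr fun M k v hv => rfl
      exact (Dfb.bex (R := fun _ v => ZFSet.pair (v 0) (v 1) ∈ app (v 6) (v 2)) ktr_zfm
        (Tm.var 4) (Dfb.mem (Tm.pair (Tm.var 0) (Tm.var 1)) (Tm.app (Tm.var 6) (Tm.var 2)))).congr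
          fun M k v hv => Iff.rfl
    rw [hh]
    exact t.1 (Ext D.M G) kE (cons τ.toZFSet (cons i.toZFSet (cons G fun _ => e))) (by
      intro j
      match j with
      | 0 => exact hME _ hτM
      | 1 => exact hME _ hiM
      | 2 => exact hGE
      | j + 3 => exact hME _ heM)
  · rintro x ⟨n, hn, rfl⟩ hxi
    have hR1 : Dfb ZFm (fun _ w => w 2 ∈ val (w 0) (w 1)) :=
      Dfb.mem (Tm.var 2) (Tm.val (Tm.var 0) (Tm.var 1))
    obtain ⟨O1, hO1, hO1'⟩ := hDS _ hR1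
    obtain ⟨O2, hO2, hO2'⟩ := hDS _ hR1.not
    have hCz : ∀ z ∈ i.toZFSet, D.M z := fun z hz' => hz.trans _ hiM z hz'
    have hv2 : ∀ x, D.M x → ∀ z, D.M z → In D.M (cons n (cons x fun _ => z)) := by
      intro x hx z hz' j
      match j with
      | 0 => exact hn
      | 1 => exact hx
      | j + 2 => exact hz'
    have h0M : D.M (∅ : V) := hz.mempty
    set P : V → V := fun x => O1 D.M (cons D.c (cons D.r (cons n (cons x fun _ => ∅)))) with hP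
    set Q : V → V := fun x => O2 D.M (cons D.c (cons D.r (cons n (cons x fun _ => ∅)))) with hQ
    have hPr : ∀ x, D.M x → RegO D.c D.r (P x) := fun x hx =>
      (hO1' D.M D.c D.r _ hz hcM hrM po (hv2 x hx ∅ h0M)).1
    have hPt : ∀ x, D.M x → ∀ G, D.Gn G → (x ∈ val G n ↔ ∃ p ∈ G, p ∈ P x) :=
      fun x hx G hG => (hO1' D.M D.c D.r _ hz hcM hrM po (hv2 x hx ∅ h0M)).2.1 G hG
    have hQr : ∀ x, D.M x → RegO D.c D.r (Q x) := fun x hx =>
      (hO2' D.M D.c D.r _ hz hcM hrM po (hv2 x hx ∅ h0M)).1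
    have hQt : ∀ x, D.M x → ∀ G, D.Gn G → (x ∉ val G n ↔ ∃ p ∈ G, p ∈ Q x) :=
      fun x hx G hG => (hO2' D.M D.c D.r _ hz hcM hrM po (hv2 x hx ∅ h0M)).2.1 G hG
    obtain ⟨W, hWdef⟩ : ∃ W, W = resS i.toZFSet fun x => P x ∪ Q x := ⟨_, rfl⟩
    have hWM : D.M W := by
      have t : Tm ZFm (fun M v => resS (v 3) fun x =>
          O1 M (cons (v 0) (cons (v 1) (cons (v 2) (cons x fun _ => v 4)))) ∪
          O2 M (cons (v 0) (cons (v 1) (cons (v 2) (cons x fun _ => v 4))))) := by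
        refine (Tm.resS (f := fun _ v => v 3) (g := fun M v =>
          O1 M (cons (v 1) (cons (v 2) (cons (v 3) (cons (v 0) fun _ => v 5)))) ∪
          O2 M (cons (v 1) (cons (v 2) (cons (v 3) (cons (v 0) fun _ => v 5))))) (Tm.var 3)
          ?_).congr fun M k v hv => rfl
        exact Tm.union (tO hO1 (Tm.var 0) (Tm.var 5)) (tO hO2 (Tm.var 0) (Tm.var 5))
      rw [hWdef]
      exact t.1 D.M hz (cons D.c (cons D.r (cons n (cons i.toZFSet fun _ => ∅))))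
        (in4 hcM hrM hn hiM h0M)
    have hWx : ∀ x ∈ i.toZFSet, ∀ p, p ∈ app W x ↔ p ∈ P x ∨ p ∈ Q x := by
      intro x hx p
      rw [hWdef, app_resS hx, ZFSet.mem_union]
    obtain ⟨p0, hp0⟩ := hG.1.ne
    obtain ⟨v, hvG, -, hvr⟩ := hPI D hD G hG i hi p0 hp0 i.toZFSet W hiM hsm hWM (by
      intro x hx
      have hxM := hCz x hx
      refine ⟨fun p hp => ?_, ?_, ?_⟩
      · rcases (hWx x hx p).1 hp with h | h
        · exact (hPr x hxM).1 h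
        · exact (hQr x hxM).1 h
      · intro p hp q hq hqp
        refine (hWx x hx q).2 ?_
        rcases (hWx x hx p).1 hp with h | h
        · exact Or.inl ((hPr x hxM).2.1 p h q ((hle q p).2 ⟨hq, (hPr x hxM).1 h, hqp⟩))
        · exact Or.inr ((hQr x hxM).2.1 p h q ((hle q p).2 ⟨hq, (hQr x hxM).1 h, hqp⟩))
      · intro p hp hpp
        obtain ⟨G', hG', hpG'⟩ := hFM D.M D.c D.r p hctb po hp
        by_cases h : x ∈ val G' n
        · obtain ⟨p', hp', hp'O⟩ := (hPt x hxM G' hG').1 h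
          obtain ⟨s, hs, hsp, hsp'⟩ := hG'.1.dir p hpG' p' hp'
          exact ⟨s, (hWx x hx s).2 (Or.inl ((hPr x hxM).2.1 p' hp'O s hsp')), (mle hsp).2.2⟩
        · obtain ⟨p', hp', hp'O⟩ := (hQt x hxM G' hG').1 h
          obtain ⟨s, hs, hsp, hsp'⟩ := hG'.1.dir p hpG' p' hp'
          exact ⟨s, (hWx x hx s).2 (Or.inr ((hQr x hxM).2.1 p' hp'O s hsp')), (mle hsp).2.2⟩)
    have hvc : v ∈ D.c := hG.1.sub hvG
    have hvM : D.M v := (hcd v hvc).2.1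
    obtain ⟨R, hRdef⟩ : ∃ R, R = (ZFSet.prod C i.toZFSet).sep fun w =>
      cat i.toZFSet (fst w) v ∈ P (snd w) := ⟨_, rfl⟩
    have hRM : D.M R := by
      have t : Tm ZFm (fun M w => (ZFSet.prod (w 3) (w 5)).sep fun y =>
          cat (w 5) (fst y) (w 4) ∈
            O1 M (cons (w 0) (cons (w 1) (cons (w 2) (cons (snd y) fun _ => w 6))))) := by
        refine (Tm.sep (f := fun _ w => ZFSet.prod (w 3) (w 5))
          (R := fun M w => cat (w 6) (fst (w 0)) (w 5) ∈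
            O1 M (cons (w 1) (cons (w 2) (cons (w 3) (cons (snd (w 0)) fun _ =>
              w 7))))) ?_
          (Tm.prod (Tm.var 3) (Tm.var 5))).congr fun M k v hv => rfl
        exact Dfb.mem (tm_cat hPC (Tm.var 6) (Tm.fst (Tm.var 0)) (Tm.var 5))
          (tO hO1 (Tm.snd (Tm.var 0)) (Tm.var 7))
      rw [hRdef]
      exact t.1 D.M hz (cons D.c (cons D.r (cons n (cons C (cons v
        (cons i.toZFSet fun _ => ∅)))))) (by
        intro j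
        match j with
        | 0 => exact hcM
        | 1 => exact hrM
        | 2 => exact hn
        | 3 => exact hCM
        | 4 => exact hvM
        | 5 => exact hiM
        | j + 6 => exact h0M)
    have hRp : ∀ u η, ZFSet.pair u η ∈ R ↔ (u ∈ C ∧ η ∈ i.toZFSet) ∧
        cat i.toZFSet u v ∈ P η := by
      intro u η
      rw [hRdef, ZFSet.mem_sep, ZFSet.pair_mem_prod, fst_pair, snd_pair]
    have hRz : R ∈ z := hmz R hRM (by
      rw [hRdef]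
      intro w hw
      exact (ZFSet.mem_sep.1 hw).1)
    obtain ⟨a, ha, haR⟩ := heo.2 R hRz
    obtain ⟨ξ, hξ, rfl⟩ := Ordinal.mem_toZFSet_iff.1 ha
    have heR : app e ξ.toZFSet = R := app_eq (svl_of_isFunc heo.1) haR
    refine ⟨ξ, hξ, ?_⟩
    rw [hh, app_resS ha, heR]
    ext η
    rw [ZFSet.mem_sep]
    constructor
    · rintro ⟨hη, u, hu, huR⟩
      obtain ⟨-, h2⟩ := (hRp u η).1 huR
      exact (hPt η (hCz η hη) G hG).2 ⟨_, cat_mem hPB hPF hPG hD hG hiM hu hvG, h2⟩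
    · intro hη
      have hηi := hxi hη
      refine ⟨hηi, ?_⟩
      obtain ⟨u', hu', hd, hcG, hcW⟩ := hvr _ hηi
      refine ⟨u', hu', (hRp u' η).2 ⟨⟨hlow i hi u' (hG.1.sub hu') hd, hηi⟩, ?_⟩⟩
      rcases (hWx η hηi _).1 hcW with h | h
      · exact h
      · exact absurd hη ((hQt η (hCz η hηi) G hG).2 ⟨_, hcG, h⟩)

end XPK

open XPK in
theorem pf_PK (hPB : T_PB) (hPC : T_PC) (hPF : T_PF) (hPG : T_PG) (hPI : T_PI) (hDF : T_DF)
    (hDO : T_DO) (hDS : T_DS) (hGH : T_GH) (hFI : T_FI) (hFM : T_FM) : T_PK := by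
  intro D hD G hG
  have hz : ZFm D.M := hD.grd.zfc.toZFm
  obtain ⟨po, hcM, hrM, -⟩ := hPF D hD
  refine ⟨?_, hD.grd.inac.unc, reg hPC hPF hPI hDF hDS hGH hFM D hD G hG,
    str hPB hPC hPF hPG hPI hDF hDO hDS hGH hFI hFM D hD G hG⟩
  exact (hFI D.M D.c D.r G hz hcM hrM po hG).2.1 _
    ((hD.grd.ord _).2 (hD.grd.κχ.trans hD.grd.χθ))

end CAA
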