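import Pool.Agent.H87.CA.PF

/-!
# MP_ceca85_lc, module PG: the fibers of a generic filter
-/

set_option linter.unusedVariables false

open Ordinal Order Set
open scoped ZFSet

namespace CAA

open SF

namespace H87

/-- the first four arguments -/
def a4 (x y z w : V) : ℕ → V
  | 0 => x
  | 1 => y
  | 2 => z
  | _ => w

theorem in_a4 {M : V → Prop} {x y z w : V} (hx : M x) (hy : M y) (hz : M z) (hw : M w) :
    In M (a4 x y z w) := by
  intro i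
  rcases i with _ | _ | _ | i
  · exact hx
  · exact hy
  · exact hz
  · exact hw

theorem mem_Xs {κ G z : V} : z ∈ Xs κ G ↔ ∃ k ∈ κ, ∃ p ∈ G, z = ZFSet.pair k (app p k) := by
  unfold Xs
  rw [mem_imS]
  constructor
  · rintro ⟨w, hw, rfl⟩
    obtain ⟨k, hk, p, hp, rfl⟩ := ZFSet.mem_prod.1 hw
    exact ⟨k, hk, p, hp, by rw [fst_pair, snd_pair]⟩
  · rintro ⟨k, hk, p, hp, rfl⟩
    exact ⟨ZFSet.pair k p, ZFSet.pair_mem_prod.2 ⟨hk, hp⟩, by rw [fst_pair, snd_pair]⟩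

theorem mem_fib {X k q : V} : q ∈ fib X k ↔ ZFSet.pair k q ∈ X := by
  unfold fib
  rw [ZFSet.mem_sep]
  exact ⟨fun h => h.2, fun h => ⟨mem_rg.2 ⟨k, h⟩, h⟩⟩

theorem mem_F {D : Dat} {G q : V} {k : Ordinal.{0}} :
    q ∈ D.F G k ↔ k < D.κ ∧ ∃ p ∈ G, q = app p k.toZFSet := by
  unfold Dat.F Dat.X
  rw [mem_fib, mem_Xs]
  constructor
  · rintro ⟨j, hj, p, hp, h⟩
    obtain ⟨rfl, rfl⟩ := ZFSet.pair_inj.1 h
    exact ⟨ord_mem.1 hj, p, hp, rfl⟩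
  · rintro ⟨hk, p, hp, rfl⟩
    exact ⟨k.toZFSet, ord_mem.2 hk, p, hp, rfl⟩

/-- a finite set of ordinals of the model is a set of the model -/
theorem fin_set {M : V → Prop} (k : ZFm M) {B : Set Ordinal.{0}} (hB : B.Finite)
    (h : ∀ b ∈ B, M b.toZFSet) : ∃ s, M s ∧ ∀ x, x ∈ s ↔ ∃ b ∈ B, x = b.toZFSet := by
  induction B, hB using Set.Finite.induction_on with
  | empty => exact ⟨∅, k.mempty, fun x => by simp⟩
  | @insert a S ha hS ih =>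
    obtain ⟨s, hs, hs2⟩ := ih fun b hb => h b (Set.mem_insert_of_mem _ hb)
    refine ⟨insert a.toZFSet s, m_insert k (h a (Set.mem_insert _ _)) hs, fun x => ?_⟩
    rw [ZFSet.mem_insert_iff, hs2]
    constructor
    · rintro (h1 | ⟨b, hb, h1⟩)
      · exact ⟨a, Set.mem_insert _ _, h1⟩
      · exact ⟨b, Set.mem_insert_of_mem _ hb, h1⟩
    · rintro ⟨b, hb, h1⟩
      rcases Set.mem_insert_iff.1 hb with rfl | hb
      · exact Or.inl h1
      · exact Or.inr ⟨b, hb, h1⟩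

end H87

open H87

theorem pf_PG (hPA : T_PA) (hPB : T_PB) (hPC : T_PC) (hPF : T_PF) : T_PG := by
  intro D hD G hG
  have hM := Ok.zM hD
  obtain ⟨pa1, pa2, pa3, pa4, pa5, pa6, pa7⟩ := hPA
  obtain ⟨pb1, pb2, pb3, pb4⟩ := id hPB
  obtain ⟨hpo, hcM, hrM, hec, pf2, pf3, pf4, pf5, pf6, pf7, pf8, pf9⟩ := hPF D hD
  have hfil := hG.1
  have hGc : ∀ p ∈ G, p ∈ D.c := fun p hp => hfil.sub hp
  have hκM : D.M D.κ.toZFSet := Ok.ordM hD (Ok.κθ hD)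
  -- downward comparability at a coordinate
  have hcomp : ∀ k < D.κ, ∀ p ∈ G, ∀ p' ∈ G, Ee (app p k.toZFSet) (app p' k.toZFSet) ∨
      Ee (app p' k.toZFSet) (app p k.toZFSet) := by
    intro k hk p hp p' hp'
    obtain ⟨s, hs, h1, h2⟩ := hfil.dir p hp p' hp'
    exact pa5 (D.μ k) (app s k.toZFSet) _ _ (((pf2 s (hGc s hs)).2.2.1 k hk).2.sub)
      (((pf6 _ _).1 h1).2.2 k hk) (((pf6 _ _).1 h2).2.2 k hk)
  have hup : ∀ p ∈ G, ∀ p' ∈ D.c, D.Le p p' → p' ∈ G := by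
    intro p hp p' hp' h
    exact hfil.up p hp p' ((pf6 _ _).2 ⟨hGc p hp, hp', h⟩)
  have hB1 : ∀ k < D.κ, ∀ q, q ∈ D.F G k ↔ ∃ p ∈ G, q = app p k.toZFSet := by
    intro k hk q
    rw [mem_F]
    exact ⟨fun h => h.2, fun h => ⟨hk, h⟩⟩
  have happ0 : ∀ x : V, app ∅ x = ∅ := fun x => pb4 ∅ x fun h => by
    obtain ⟨y, hy⟩ := mem_dm.1 h
    exact ZFSet.notMem_empty _ hy
  have hB3 : ∀ k < D.κ, ∅ ∈ D.F G k := by
    intro k hk
    obtain ⟨p, hp⟩ := (ZFSet.nonempty_def _).1 hfil.ne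
    refine (hB1 k hk ∅).2 ⟨∅, hup p hp ∅ hec fun j hj => ?_, (happ0 _).symm⟩
    rw [happ0]
    exact pa3 _
  have hB2 : ∀ k < D.κ, ∀ q ∈ D.F G k, D.Q k q := by
    intro k hk q hq
    obtain ⟨p, hp, rfl⟩ := (hB1 k hk q).1 hq
    exact (pf2 p (hGc p hp)).2.2.1 k hk
  have hB5 : ∀ k < D.κ, ∀ q ∈ D.F G k, ∀ q' ∈ D.F G k, Ee q q' ∨ Ee q' q := by
    intro k hk q hq q' hq'
    obtain ⟨p, hp, rfl⟩ := (hB1 k hk q).1 hq
    obtain ⟨p', hp', rfl⟩ := (hB1 k hk q').1 hq'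
    exact hcomp k hk p hp p' hp'
  have hB4 : ∀ k < D.κ, ∀ q ∈ D.F G k, ∀ q', D.Q k q' → Ee q q' → q' ∈ D.F G k := by
    intro k hk q hq q' hq' he
    obtain ⟨p, hp, rfl⟩ := (hB1 k hk q).1 hq
    obtain ⟨-, h2, h3⟩ := pb3 p k.toZFSet q' (pf2 p (hGc p hp)).1
    refine (hB1 k hk q').2 ⟨upd p k.toZFSet q', hup p hp _ (pf5 p (hGc p hp) k hk q' hq')
      fun j hj => ?_, h2.symm⟩
    by_cases hjk : j = k
    · subst hjk
      rw [h2]
      exact he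
    · rw [h3 j.toZFSet fun h => hjk (Ordinal.toZFSet_injective h)]
      exact pa1 _
  -- (A)
  have hA : ∀ p ∈ D.c, (p ∈ G ↔ ∀ k < D.κ, app p k.toZFSet ∈ D.F G k) := by
    intro p hp
    constructor
    · intro h k hk
      exact (hB1 k hk _).2 ⟨p, h, rfl⟩
    · intro h
      obtain ⟨E, hE⟩ : ∃ E, E = D.c.sep fun r => ZFSet.pair r p ∈ D.r ∨
        ∃ k ∈ D.κ.toZFSet, ¬ Ee (app r k) (app p k) ∧ ¬ Ee (app p k) (app r k) := ⟨_, rfl⟩
      have hEM : D.M E := by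
        have t0 : Dfb ZFm (fun _ v => Ee (app (v 1) (v 0)) (app (v 3) (v 0))) :=
          Dfb.at2 (P := fun _ x y => Ee x y) hPC.2.1 (Tm.app (Tm.var 1) (Tm.var 0))
            (Tm.app (Tm.var 3) (Tm.var 0))
        have t0' : Dfb ZFm (fun _ v => Ee (app (v 3) (v 0)) (app (v 1) (v 0))) :=
          Dfb.at2 (P := fun _ x y => Ee x y) hPC.2.1 (Tm.app (Tm.var 3) (Tm.var 0))
            (Tm.app (Tm.var 1) (Tm.var 0))
        have t1 : Dfb ZFm (fun _ v => ∃ k ∈ v 4, ¬ Ee (app (v 0) k) (app (v 2) k) ∧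
            ¬ Ee (app (v 2) k) (app (v 0) k)) :=
          (Dfb.bex ktr_zfm (Tm.var 4) (t0.not.and t0'.not)).congr fun M k v hv => Iff.rfl
        have t2 : Dfb ZFm (fun _ v => ZFSet.pair (v 0) (v 2) ∈ v 3) :=
          Dfb.pairMem (Tm.var 0) (Tm.var 2) (Tm.var 3)
        have t3 := (Tm.sep (t2.or t1) (Tm.var 0)).1 D.M hM (a4 D.c p D.r D.κ.toZFSet)
          (in_a4 hcM (pf2 p hp).2.1 hrM hκM)
        rw [hE]
        exact t3
      have hdense : IsDense D.c D.r E := by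
        refine ⟨fun z hz => by rw [hE] at hz; exact (ZFSet.mem_sep.1 hz).1, fun r hr => ?_⟩
        by_cases hb : ∃ k ∈ D.κ.toZFSet, ¬ Ee (app r k) (app p k) ∧ ¬ Ee (app p k) (app r k)
        · exact ⟨r, by rw [hE]; exact ZFSet.mem_sep.2 ⟨hr, Or.inr hb⟩, hpo.refl r hr⟩
        · push Not at hb
          obtain ⟨s, hs, h1, h2⟩ := pf7 r hr p hp fun k hk => by
            by_cases h3 : Ee (app r k.toZFSet) (app p k.toZFSet)
            · exact Or.inl h3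
            · exact Or.inr (hb _ (ord_mem.2 hk) h3)
          refine ⟨s, ?_, (pf6 _ _).2 ⟨hs, hr, h1⟩⟩
          rw [hE]
          exact ZFSet.mem_sep.2 ⟨hs, Or.inl ((pf6 _ _).2 ⟨hs, hp, h2⟩)⟩
      obtain ⟨r, hr, hrE⟩ := hG.2 E hEM hdense
      rw [hE] at hrE
      rcases (ZFSet.mem_sep.1 hrE).2 with h1 | ⟨x, hx, h1, h2⟩
      · exact hfil.up r hr p h1
      · exfalso
        obtain ⟨k, hk, rfl⟩ := mem_toZFSet.1 hx
        obtain ⟨p1, hp1, h3⟩ := (hB1 k hk _).1 (h k hk)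
        rw [h3] at h1 h2
        rcases hcomp k hk r hr p1 hp1 with h4 | h4
        · exact h1 h4
        · exact h2 h4
  -- (B6)
  have hB6 : ∀ k < D.κ, ∀ x < D.μ k, ∃ q ∈ D.F G k, ∃ y < D.μ k, x < y ∧ y.toZFSet ∈ q ∧
      ∀ z ∈ q, z ∈ y.toZFSet ∨ z = y.toZFSet := by
    intro k hk x hx
    have hμM : D.M (D.μ k).toZFSet := Ok.ordM hD ((hD.sz.μκ k hk).trans (Ok.κθ hD))
    have hkM : D.M k.toZFSet := Ok.ordM hD (hk.trans (Ok.κθ hD))
    have hxM : D.M x.toZFSet := hM.trans _ hμM _ (ord_mem.2 hx)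
    obtain ⟨E, hE⟩ : ∃ E, E = D.c.sep fun r => ∃ y ∈ (D.μ k).toZFSet, x.toZFSet ∈ y ∧
        y ∈ app r k.toZFSet ∧ ∀ z ∈ app r k.toZFSet, z ∈ y ∨ z = y := ⟨_, rfl⟩
    have hEM : D.M E := by
      -- `v`: `r, c, μ, x, k`
      have t1 : Dfb ZFm (fun _ v => ∀ z ∈ app (v 1) (v 5), z ∈ v 0 ∨ z = v 0) :=
        (Dfb.ball (R := fun _ v => v 0 ∈ v 1 ∨ v 0 = v 1) ktr_zfm (Tm.app (Tm.var 1) (Tm.var 5))
          ((Dfb.mem (Tm.var 0) (Tm.var 1)).or (Dfb.eq (Tm.var 0) (Tm.var 1)))).congr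
          fun M k v hv => Iff.rfl
      have t2 : Dfb ZFm (fun _ v => v 4 ∈ v 0 ∧ v 0 ∈ app (v 1) (v 5) ∧
          ∀ z ∈ app (v 1) (v 5), z ∈ v 0 ∨ z = v 0) :=
        (Dfb.mem (Tm.var 4) (Tm.var 0)).and
          ((Dfb.mem (Tm.var 0) (Tm.app (Tm.var 1) (Tm.var 5))).and t1)
      have t3 : Dfb ZFm (fun _ v => ∃ y ∈ v 2, v 3 ∈ y ∧ y ∈ app (v 0) (v 4) ∧
          ∀ z ∈ app (v 0) (v 4), z ∈ y ∨ z = y) :=
        (Dfb.bex ktr_zfm (Tm.var 2) t2).congr fun M k v hv => Iff.rfl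
      have t4 := (Tm.sep t3 (Tm.var 0)).1 D.M hM
        (a4 D.c (D.μ k).toZFSet x.toZFSet k.toZFSet) (in_a4 hcM hμM hxM hkM)
      rw [hE]
      exact t4
    have hdense : IsDense D.c D.r E := by
      refine ⟨fun z hz => by rw [hE] at hz; exact (ZFSet.mem_sep.1 hz).1, fun r hr => ?_⟩
      obtain ⟨h1, -, h2, -⟩ := pf2 r hr
      obtain ⟨y, hy, hxy, hz, hQ, he⟩ := pf8 k hk _ (h2 k hk) x hx
      obtain ⟨-, h3, h4⟩ := pb3 r k.toZFSet (insert y.toZFSet (app r k.toZFSet)) h1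
      have h5 := pf5 r hr k hk _ hQ
      refine ⟨_, ?_, (pf6 _ _).2 ⟨h5, hr, fun j hj => ?_⟩⟩
      · rw [hE]
        refine ZFSet.mem_sep.2 ⟨h5, y.toZFSet, ord_mem.2 hy, ord_mem.2 hxy, ?_, ?_⟩
        · rw [h3]
          exact ZFSet.mem_insert _ _
        · intro z hz'
          rw [h3] at hz'
          rcases ZFSet.mem_insert_iff.1 hz' with h | h
          · exact Or.inr h
          · exact Or.inl (hz z h)
      · by_cases hjk : j = k
        · subst hjk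
          rw [h3]
          exact he
        · rw [h4 j.toZFSet fun h => hjk (Ordinal.toZFSet_injective h)]
          exact pa1 _
    obtain ⟨p, hp, hpE⟩ := hG.2 E hEM hdense
    rw [hE] at hpE
    obtain ⟨y, hy, hxy, hyp, hz⟩ := (ZFSet.mem_sep.1 hpE).2
    obtain ⟨η, hη, rfl⟩ := mem_toZFSet.1 hy
    exact ⟨app p k.toZFSet, (hB1 k hk _).2 ⟨p, hp, rfl⟩, η, hη, ord_mem.1 hxy, hyp, hz⟩
  have hX : ∀ z, z ∈ D.X G ↔ ∃ k < D.κ, ∃ q ∈ D.F G k, z = ZFSet.pair k.toZFSet q := by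
    intro z
    unfold Dat.X
    rw [mem_Xs]
    constructor
    · rintro ⟨x, hx, p, hp, rfl⟩
      obtain ⟨k, hk, rfl⟩ := mem_toZFSet.1 hx
      exact ⟨k, hk, _, (hB1 k hk _).2 ⟨p, hp, rfl⟩, rfl⟩
    · rintro ⟨k, hk, q, hq, rfl⟩
      obtain ⟨p, hp, rfl⟩ := (hB1 k hk q).1 hq
      exact ⟨k.toZFSet, ord_mem.2 hk, p, hp, rfl⟩
  have hXF : ∀ k < D.κ, ∀ q, ZFSet.pair k.toZFSet q ∈ D.X G ↔ q ∈ D.F G k := by
    intro k hk q
    unfold Dat.F
    rw [mem_fib]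
  have hE : ∀ p ∈ D.c, (p ∈ D.H G ↔
      {k : Ordinal.{0} | k < D.κ ∧ app p k.toZFSet ∉ D.F G k}.Finite) := by
    intro p hp
    unfold Dat.H Hs
    rw [ZFSet.mem_sep]
    constructor
    · rintro ⟨-, l, hl, h⟩
      refine Set.Finite.subset (Set.Finite.preimage (f := fun k : Ordinal.{0} => k.toZFSet)
        (Ordinal.toZFSet_injective.injOn) (List.finite_toSet l)) ?_
      rintro k ⟨hk, hk2⟩
      show k.toZFSet ∈ l
      by_contra hkl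
      exact hk2 ((hXF k hk _).1 (h _ (ord_mem.2 hk) hkl))
    · intro hfin
      refine ⟨hp, hfin.toFinset.toList.map fun k => k.toZFSet, ?_, ?_⟩
      · intro x hx
        obtain ⟨k, hk, rfl⟩ := List.mem_map.1 hx
        rw [Finset.mem_toList, Set.Finite.mem_toFinset] at hk
        exact ord_mem.2 hk.1
      · intro x hx hxl
        obtain ⟨k, hk, rfl⟩ := mem_toZFSet.1 hx
        rw [hXF k hk]
        by_contra hkF
        refine hxl (List.mem_map.2 ⟨k, ?_, rfl⟩)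
        rw [Finset.mem_toList, Set.Finite.mem_toFinset]
        exact ⟨hk, hkF⟩
  refine ⟨hA, fun k hk => ⟨hB1 k hk, hB2 k hk, hB3 k hk, hB4 k hk, hB5 k hk, hB6 k hk, ?_, ?_⟩,
    hX, ?_, hE, ?_⟩
  · -- club
    refine ⟨?_, ?_, ?_⟩
    · intro x hx
      obtain ⟨q, hq, hxq⟩ := ZFSet.mem_sUnion.1 hx
      exact (hB2 k hk q hq).2.sub hxq
    · intro ξ hξ
      obtain ⟨q, hq, y, hy, hxy, hyq, -⟩ := hB6 k hk ξ hξ
      exact ⟨y, hxy, ZFSet.mem_sUnion.2 ⟨q, hq, hyq⟩⟩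
    · intro δ hδ hδ0 h
      obtain ⟨q, hq, y, hy, hδy, hyq, -⟩ := hB6 k hk δ hδ
      refine ZFSet.mem_sUnion.2 ⟨q, hq, ?_⟩
      refine (hB2 k hk q hq).2.cl δ.toZFSet (ord_mem.2 hδ) ?_ ?_
      · intro h0
        apply hδ0
        rw [← Ordinal.toZFSet_zero] at h0
        exact Ordinal.toZFSet_injective h0
      · intro x hx
        obtain ⟨ξ, hξ, rfl⟩ := mem_toZFSet.1 hx
        obtain ⟨η, hξη, hηδ, hη⟩ := h ξ hξ
        obtain ⟨q', hq', hηq'⟩ := ZFSet.mem_sUnion.1 hη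
        refine ⟨η.toZFSet, ?_, ord_mem.2 hξη, ord_mem.2 hηδ⟩
        rcases hB5 k hk q hq q' hq' with h1 | h1
        · exact h1.1 hηq'
        · exact h1.2 _ hηq' _ hyq (ord_mem.2 (hηδ.trans hδy))
  · intro x hx
    obtain ⟨q, hq, hxq⟩ := ZFSet.mem_sUnion.1 hx
    exact (hB2 k hk q hq).2.dj x hxq
  · intro p hp
    rw [hE p (hGc p hp)]
    have h1 : {k : Ordinal.{0} | k < D.κ ∧ app p k.toZFSet ∉ D.F G k} = ∅ := by
      ext k
      simp only [Set.mem_ofPred_eq, Set.mem_empty_iff_false, iff_false, not_and, not_not]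
      exact fun hk => (hB1 k hk _).2 ⟨p, hp, rfl⟩
    rw [h1]
    exact Set.finite_empty
  · intro p hp T hT
    have hpc : p ∈ D.c := by
      unfold Dat.H Hs at hp
      exact (ZFSet.mem_sep.1 hp).1
    have hfin := (hE p hpc).1 hp
    obtain ⟨b, hb, hb2⟩ := fin_set hM hfin fun k hk =>
      Ok.ordM hD (hk.1.trans (Ok.κθ hD))
    obtain ⟨S, hS⟩ : ∃ S, S = D.κ.toZFSet \ b := ⟨_, rfl⟩
    have hSM : D.M S := by
      rw [hS]
      exact (Tm.diff (Tm.var 0) (Tm.var 1)).1 D.M hM (a3 D.κ.toZFSet b b) (in_a3 hκM hb hb)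
    have hSk : ∀ k : Ordinal.{0}, k.toZFSet ∈ S ↔ k < D.κ ∧ app p k.toZFSet ∈ D.F G k := by
      intro k
      rw [hS, ZFSet.mem_sdiff, ord_mem, hb2]
      refine and_congr_right fun hk => ?_
      constructor
      · intro h
        by_contra h1
        exact h ⟨k, ⟨hk, h1⟩, rfl⟩
      · rintro h ⟨j, ⟨hj, hj2⟩, h1⟩
        rw [Ordinal.toZFSet_injective h1] at h
        exact hj2 h
    obtain ⟨h1, -, h2, h3⟩ := pf2 p hpc
    obtain ⟨h4, h5⟩ := pb1 p S h1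
    have hp'c := pf3 p hpc S hSM
    refine ⟨rst S p, (hA _ hp'c).2 fun k hk => ?_, ?_, ?_⟩
    · by_cases hkS : k.toZFSet ∈ S
      · rw [(h5 _).1 hkS]
        exact ((hSk k).1 hkS).2
      · rw [(h5 _).2 hkS]
        exact hB3 k hk
    · intro k hk
      by_cases hkκ : k < D.κ
      · exact (h5 _).1 ((hSk k).2 ⟨hkκ, hT k hk hkκ⟩)
      · have h6 : k.toZFSet ∉ D.κ.toZFSet := fun h => hkκ (ord_mem.1 h)
        rw [h3 _ h6]
        exact (pf2 _ hp'c).2.2.2 _ h6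
    · rintro z ⟨k, hk, hz⟩
      unfold rst
      rw [ZFSet.mem_sep]
      refine ⟨fun h => h.1, fun h => ⟨h, ?_⟩⟩
      obtain ⟨j, hj, q, hq⟩ := ((hD.cA p).1 hpc).pr z h
      rw [hz]
      rw [hq, fst_pair] at hz
      have h7 : j = k := Ordinal.toZFSet_injective hz
      subst h7
      exact (hSk j).2 ⟨hj, hT j hk hj⟩

end CAA
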